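import Pool.Agent.TH791.GR.Mom
import Pool.Agent.TH791.GR.Lat

/-! Clipping. -/

set_option autoImplicit false
set_option linter.unusedSectionVars false

open scoped BigOperators
open MeasureTheory

namespace Pool.Agent.TH791.GR

open Pool.Agent.W788.BK
open Pool.Agent.H4R2.LO (Zd)
open Pool.Agent.H4R2
open Pool.Agent.TH794.GBK (clip clip_abs clip_eq clip_meas)

/-- clipping at `b` and centring: the field, with the event that it is not changed near the box -/
theorem clipped' (d : ℕ) (A : ℝ) (X b R : ℝ) (μ : Measure ℝ) (hμ : IsProbabilityMeasure μ)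
    (hb0 : 0 < b) (hR0 : 0 ≤ R)
    (n5 : 2 * R + 1 ≤ Real.exp (2 * X))
    (n6 : Real.exp (2 * X) ^ d * (A * Real.exp (-b)) ≤
      1 / 2 * Real.exp (-X))
    (hA : 0 < A)
    (htail : ∀ r : ℝ, 0 ≤ r → μ.real {s | r < |s|} ≤ A * Real.exp (-r)) :
    ∃ (M0 : ℝ) (F : ℝ → ℝ), |M0| ≤ b ∧ M0 = ∫ s, clip b s ∂μ ∧
      (F = fun s => (clip b s - M0) / (2 * b)) ∧ Measurable F ∧
      IsProbabilityMeasure (μ.map F) ∧ (∀ᵐ s ∂(μ.map F), |s| ≤ 1) ∧
      ∫ s, s ∂(μ.map F) = 0 ∧
      (∀ V0 : ℝ, ∫ s, (clip b s - M0) ^ 2 ∂μ = V0 → ∫ s, s ^ 2 ∂(μ.map F) = V0 / (4 * b ^ 2)) ∧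
      ∀ (G1 : Set (Zd d → ℝ)), MeasurableSet G1 →
        1 - 1 / 2 * Real.exp (-X) ≤
          (Measure.infinitePi fun _ : Zd d => μ.map F).real G1 →
        ∃ G : Set (Zd d → ℝ), MeasurableSet G ∧
          1 - Real.exp (-X) ≤ (Measure.infinitePi fun _ : Zd d => μ).real G ∧
          ∀ ξ ∈ G, (fun x => F (ξ x)) ∈ G1 ∧ ∀ x : Zd d, ‖x‖ ≤ R → clip b (ξ x) = ξ x := by
  obtain ⟨M0, hM0⟩ : ∃ M0, M0 = ∫ s, clip b s ∂μ := ⟨_, rfl⟩
  have hcm := clip_meas b
  have hint : Integrable (fun s : ℝ => clip b s) μ := by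
    refine Integrable.of_bound (C := b) hcm.aestronglyMeasurable (Filter.Eventually.of_forall ?_)
    intro s
    rw [Real.norm_eq_abs]
    exact clip_abs b s hb0.le
  have hM0b : |M0| ≤ b := by
    rw [hM0, ← Real.norm_eq_abs]
    have h1 := norm_integral_le_of_norm_le_const (μ := μ) (f := fun s : ℝ => clip b s) (C := b)
      (Filter.Eventually.of_forall (by
        intro s
        rw [Real.norm_eq_abs]
        exact clip_abs b s hb0.le))
    rw [probReal_univ, mul_one] at h1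
    exact h1
  obtain ⟨F, hF⟩ : ∃ F : ℝ → ℝ, F = fun s => (clip b s - M0) / (2 * b) := ⟨_, rfl⟩
  have hFm : Measurable F := by
    rw [hF]
    fun_prop
  have hFb : ∀ s, |F s| ≤ 1 := by
    intro s
    rw [hF]
    simp only
    rw [abs_div, abs_of_pos (show 0 < 2 * b by positivity), div_le_one (by positivity)]
    have h1 := abs_sub (clip b s) M0
    have h2 := clip_abs b s hb0.le
    linarith
  have hνp : IsProbabilityMeasure (μ.map F) :=
    Measure.isProbabilityMeasure_map hFm.aemeasurable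
  have hνb : ∀ᵐ s ∂(μ.map F), |s| ≤ 1 := by
    rw [ae_map_iff hFm.aemeasurable (measurableSet_le (by fun_prop) (by fun_prop))]
    exact Filter.Eventually.of_forall hFb
  have hν0 : ∫ s, s ∂(μ.map F) = 0 := by
    rw [integral_map hFm.aemeasurable (by fun_prop), hF, integral_div,
      integral_sub hint (integrable_const _), integral_const, probReal_univ, one_smul, hM0,
      sub_self, zero_div]
  have hν2 : ∀ V0 : ℝ, ∫ s, (clip b s - M0) ^ 2 ∂μ = V0 →
      ∫ s, s ^ 2 ∂(μ.map F) = V0 / (4 * b ^ 2) := by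
    intro V0 hV0
    rw [integral_map hFm.aemeasurable (by fun_prop), hF]
    have e1 : ∀ s : ℝ, ((clip b s - M0) / (2 * b)) ^ 2 = (clip b s - M0) ^ 2 / (4 * b ^ 2) := by
      intro s
      rw [div_pow]
      ring
    simp only [e1]
    rw [integral_div, hV0]
  refine ⟨M0, F, hM0b, hM0, hF, hFm, hνp, hνb, hν0, hν2, fun G1 hG1 hP1 => ?_⟩
  have hTm : Measurable (fun (ω : Zd d → ℝ) x => F (ω x)) := by fun_prop
  have hlaw : (Measure.infinitePi fun _ : Zd d => μ).map (fun ω x => F (ω x)) =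
      Measure.infinitePi fun _ : Zd d => μ.map F :=
    Measure.infinitePi_map_pi (μ := fun _ : Zd d => μ)
      (f := fun _ (s : ℝ) => F s) (fun _ => by fun_prop)
  obtain ⟨G1', hG1'⟩ : ∃ G1', G1' = (fun (ω : Zd d → ℝ) x => F (ω x)) ⁻¹' G1 := ⟨_, rfl⟩
  have hG1m : MeasurableSet G1' := by
    rw [hG1']
    exact hTm hG1
  have hPP1 : 1 - 1 / 2 * Real.exp (-X) ≤
      (Measure.infinitePi fun _ : Zd d => μ).real G1' := by
    have h1 : (Measure.infinitePi fun _ : Zd d => μ).real G1' =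
        (Measure.infinitePi fun _ : Zd d => μ.map F).real G1 := by
      rw [hG1', ← hlaw, map_measureReal_apply hTm hG1]
    rw [h1]
    exact hP1
  obtain ⟨B0, hB0⟩ : ∃ B0 : Finset (Zd d), B0 = LO.bx (0 : Zd d) ⌊R⌋₊ := ⟨_, rfl⟩
  have hSm : ∀ a : Zd d, MeasurableSet {ω : Zd d → ℝ | b < |ω a|} := fun a =>
    measurableSet_lt measurable_const (by fun_prop)
  have hSa : ∀ a : Zd d, (Measure.infinitePi fun _ : Zd d => μ).real {ω : Zd d → ℝ | b < |ω a|} ≤
      A * Real.exp (-b) := by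
    intro a
    have h1 : (Measure.infinitePi fun _ : Zd d => μ).real {ω : Zd d → ℝ | b < |ω a|} =
        μ.real {s | b < |s|} := by
      have h2 := Measure.infinitePi_map_eval (fun _ : Zd d => μ) a
      have h3 : {ω : Zd d → ℝ | b < |ω a|} = (Function.eval a) ⁻¹' {s : ℝ | b < |s|} := rfl
      rw [h3, ← map_measureReal_apply (measurable_pi_apply a)
        (measurableSet_lt measurable_const (by fun_prop)), h2]
    rw [h1]
    exact htail b hb0.le
  obtain ⟨G2, hG2⟩ : ∃ G2 : Set (Zd d → ℝ), G2 = ⋂ a ∈ B0, {ω : Zd d → ℝ | b < |ω a|}ᶜ :=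
    ⟨_, rfl⟩
  have hG2m : MeasurableSet G2 := by
    rw [hG2]
    exact Finset.measurableSet_biInter _ fun a _ => (hSm a).compl
  have hP2 : (Measure.infinitePi fun _ : Zd d => μ).real G2ᶜ ≤
      1 / 2 * Real.exp (-X) := by
    have e1 : G2ᶜ = ⋃ a ∈ B0, {ω : Zd d → ℝ | b < |ω a|} := by
      rw [hG2]
      simp only [Set.compl_iInter, compl_compl]
    rw [e1]
    refine (measureReal_biUnion_finset_le _ _).trans
      ((Finset.sum_le_sum fun a _ => hSa a).trans ?_)
    rw [Finset.sum_const, nsmul_eq_mul, hB0, LO.Em.card_bx]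
    refine le_trans ?_ n6
    apply mul_le_mul_of_nonneg_right _ (by positivity)
    push_cast
    apply pow_le_pow_left₀ (by positivity)
    have := Nat.floor_le hR0
    linarith
  refine ⟨G1' ∩ G2, hG1m.inter hG2m, ?_, ?_⟩
  · have h1 := probReal_add_probReal_compl (μ := Measure.infinitePi fun _ : Zd d => μ)
      (hG1m.inter hG2m)
    have h2 := probReal_add_probReal_compl (μ := Measure.infinitePi fun _ : Zd d => μ) hG1m
    have h3 : (Measure.infinitePi fun _ : Zd d => μ).real (G1' ∩ G2)ᶜ ≤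
        (Measure.infinitePi fun _ : Zd d => μ).real G1'ᶜ +
        (Measure.infinitePi fun _ : Zd d => μ).real G2ᶜ := by
      rw [Set.compl_inter]
      exact measureReal_union_le _ _
    linarith
  · intro ξ hξ
    refine ⟨?_, ?_⟩
    · have h2 := hξ.1
      rw [hG1'] at h2
      exact h2
    · intro x hx
      have hxB : x ∈ B0 := by
        rw [hB0]
        exact Pool.Agent.W788.Gen3.norm_zd x R hx
      have h1 := hξ.2
      rw [hG2] at h1
      have h2 := Set.mem_iInter₂.1 h1 x hxB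
      simp only [Set.mem_compl_iff, Set.mem_ofPred_eq, not_lt] at h2
      exact clip_eq b _ h2

end Pool.Agent.TH791.GR
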