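import Pool.Agent.TH794.GBK.Fin

/-! Moments of laws with exponential tails, and of the clipped law. -/

set_option autoImplicit false

open scoped BigOperators ENNReal
open MeasureTheory

namespace Pool.Agent.TH791.GR

open Pool.Agent.TH794.GBK (clip clip_abs clip_eq clip_meas)

/-- moments from tails -/
theorem momL (μ : Measure ℝ) (f : ℝ → ℝ) (hf0 : ∀ s, 0 ≤ f s) (hfm : Measurable f) (B : ℝ)
    (hB : 0 ≤ B) (h : ∀ t : ℝ, 0 < t → μ {s | t < f s} ≤ ENNReal.ofReal (B * Real.exp (-t)))
    (p : ℝ) (hp : 0 < p) :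
    ∫⁻ s, ENNReal.ofReal (f s ^ p) ∂μ ≤ ENNReal.ofReal (B * Real.Gamma (p + 1)) := by
  rw [lintegral_rpow_eq_lintegral_meas_lt_mul μ (Filter.Eventually.of_forall hf0)
    hfm.aemeasurable hp]
  have h1 : ∫⁻ t in Set.Ioi (0 : ℝ), μ {a : ℝ | t < f a} * ENNReal.ofReal (t ^ (p - 1)) ≤
      ∫⁻ t in Set.Ioi (0 : ℝ), ENNReal.ofReal (B * (Real.exp (-t) * t ^ (p - 1))) := by
    apply setLIntegral_mono' measurableSet_Ioi
    intro t ht
    rw [Set.mem_Ioi] at ht
    calc μ {a : ℝ | t < f a} * ENNReal.ofReal (t ^ (p - 1)) ≤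
        ENNReal.ofReal (B * Real.exp (-t)) * ENNReal.ofReal (t ^ (p - 1)) := by
          gcongr
          exact h t ht
      _ = _ := by
          rw [← ENNReal.ofReal_mul (by positivity)]
          ring_nf
  have h2 : ∫⁻ t in Set.Ioi (0 : ℝ), ENNReal.ofReal (B * (Real.exp (-t) * t ^ (p - 1))) =
      ENNReal.ofReal (B * Real.Gamma p) := by
    rw [← ofReal_integral_eq_lintegral_ofReal]
    · rw [integral_const_mul, Real.Gamma_eq_integral hp]
    · exact (Real.GammaIntegral_convergent hp).const_mul B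
    · refine (ae_restrict_iff' measurableSet_Ioi).2 (Filter.Eventually.of_forall fun t ht => ?_)
      rw [Set.mem_Ioi] at ht
      simp only [Pi.zero_apply]
      positivity
  calc ENNReal.ofReal p * ∫⁻ t in Set.Ioi (0 : ℝ), μ {a : ℝ | t < f a} *
        ENNReal.ofReal (t ^ (p - 1)) ≤ ENNReal.ofReal p * ENNReal.ofReal (B * Real.Gamma p) := by
        gcongr
        exact h1.trans (le_of_eq h2)
    _ = _ := by
        rw [← ENNReal.ofReal_mul hp.le, Real.Gamma_add_one hp.ne']
        ring_nf

/-- moments from tails -/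
theorem momN (μ : Measure ℝ) (f : ℝ → ℝ) (hf0 : ∀ s, 0 ≤ f s) (hfm : Measurable f) (B : ℝ)
    (hB : 0 ≤ B) (h : ∀ t : ℝ, 0 < t → μ {s | t < f s} ≤ ENNReal.ofReal (B * Real.exp (-t)))
    (k : ℕ) (hk : 0 < k) :
    Integrable (fun s => f s ^ k) μ ∧ ∫ s, f s ^ k ∂μ ≤ B * (k.factorial : ℝ) := by
  have hk0 : (0 : ℝ) < k := by exact_mod_cast hk
  have h1 := momL μ f hf0 hfm B hB h k hk0
  have e1 : Real.Gamma ((k : ℝ) + 1) = (k.factorial : ℝ) := Real.Gamma_nat_eq_factorial k
  simp only [Real.rpow_natCast] at h1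
  rw [e1] at h1
  have hm : Measurable fun s => f s ^ k := by fun_prop
  have hi : Integrable (fun s => f s ^ k) μ := by
    refine ⟨hm.aestronglyMeasurable, ?_⟩
    rw [hasFiniteIntegral_iff_ofReal (Filter.Eventually.of_forall fun s => by
      have := hf0 s
      positivity)]
    exact lt_of_le_of_lt h1 ENNReal.ofReal_lt_top
  refine ⟨hi, ?_⟩
  rw [← ENNReal.ofReal_le_ofReal_iff (by positivity),
    ofReal_integral_eq_lintegral_ofReal hi (Filter.Eventually.of_forall fun s => by
      have := hf0 s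
      simp only [Pi.zero_apply]
      positivity)]
  exact h1

/-- the part of `|s|` above `b` -/
noncomputable def ex (b s : ℝ) : ℝ := max (|s| - b) 0

theorem ex_nonneg (b s : ℝ) : 0 ≤ ex b s := le_max_right _ _

theorem ex_meas (b : ℝ) : Measurable (ex b) := by
  unfold ex
  fun_prop

theorem ex_mom (μ : Measure ℝ) [IsProbabilityMeasure μ] (A b : ℝ) (hA : 0 < A) (hb : 0 ≤ b)
    (htail : ∀ r : ℝ, 0 ≤ r → μ.real {s | r < |s|} ≤ A * Real.exp (-r)) (k : ℕ) (hk : 0 < k) :
    Integrable (fun s => ex b s ^ k) μ ∧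
      ∫ s, ex b s ^ k ∂μ ≤ A * Real.exp (-b) * (k.factorial : ℝ) := by
  refine momN μ (ex b) (ex_nonneg b) (ex_meas b) (A * Real.exp (-b)) (by positivity) ?_ k hk
  intro t ht
  have e1 : {s : ℝ | t < ex b s} = {s | b + t < |s|} := by
    ext s
    simp only [Set.mem_ofPred_eq, ex, lt_max_iff]
    constructor
    · rintro (h | h)
      · linarith
      · linarith
    · intro h
      left
      linarith
  rw [e1]
  have h1 := htail (b + t) (by linarith)
  have e2 : A * Real.exp (-(b + t)) = A * Real.exp (-b) * Real.exp (-t) := by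
    rw [neg_add, Real.exp_add]
    ring
  rw [e2] at h1
  rw [← ENNReal.ofReal_toReal (measure_ne_top μ {s | b + t < |s|})]
  exact ENNReal.ofReal_le_ofReal h1

theorem clip_sub (b s : ℝ) (hb : 0 ≤ b) : |s - clip b s| = ex b s := by
  unfold clip ex
  rcases le_or_gt s 0 with hs | hs
  · rcases le_or_gt s (-b) with h | h
    · rw [min_eq_right (by linarith), max_eq_left h, abs_of_nonpos hs, abs_of_nonpos (by linarith),
        max_eq_left (by linarith)]
      ring
    · rw [min_eq_right (by linarith), max_eq_right h.le, abs_of_nonpos hs,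
        max_eq_right (by linarith)]
      simp
  · rcases le_or_gt b s with h | h
    · rw [min_eq_left h, max_eq_right (by linarith), abs_of_pos hs, abs_of_nonneg (by linarith),
        max_eq_left (by linarith)]
    · rw [min_eq_right h.le, max_eq_right (by linarith), abs_of_pos hs, max_eq_right (by linarith)]
      simp

theorem clip_sq (b s : ℝ) (hb : 0 ≤ b) : s ^ 2 - clip b s ^ 2 = ex b s ^ 2 + 2 * b * ex b s := by
  unfold clip ex
  rcases le_or_gt s 0 with hs | hs
  · rcases le_or_gt s (-b) with h | h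
    · rw [min_eq_right (by linarith), max_eq_left h, abs_of_nonpos hs, max_eq_left (by linarith)]
      ring
    · rw [min_eq_right (by linarith), max_eq_right h.le, abs_of_nonpos hs,
        max_eq_right (by linarith)]
      ring
  · rcases le_or_gt b s with h | h
    · rw [min_eq_left h, max_eq_right (by linarith), abs_of_pos hs, max_eq_left (by linarith)]
      ring
    · rw [min_eq_right h.le, max_eq_right (by linarith), abs_of_pos hs, max_eq_right (by linarith)]
      ring

/-- the first two moments of the law and of the clipped law -/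
theorem moments (μ : Measure ℝ) [IsProbabilityMeasure μ] (A b : ℝ) (hA : 0 < A) (hb : 0 ≤ b)
    (htail : ∀ r : ℝ, 0 ≤ r → μ.real {s | r < |s|} ≤ A * Real.exp (-r))
    (M V M0 V0 : ℝ) (hM : ∫ s, s ∂μ = M) (hV : ∫ s, (s - M) ^ 2 ∂μ = V)
    (hM0 : ∫ s, clip b s ∂μ = M0) (hV0 : ∫ s, (clip b s - M0) ^ 2 ∂μ = V0) :
    |M - M0| ≤ A * Real.exp (-b) ∧
      |V - V0| ≤ (2 * A * (1 + b) + 2 * A ^ 2) * Real.exp (-b) ∧
      0 ≤ V0 ∧ |M| ≤ A ∧ V ≤ 2 * A := by
  have hcm := clip_meas b
  obtain ⟨i1, j1⟩ := ex_mom μ A b hA hb htail 1 one_pos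
  obtain ⟨i2, j2⟩ := ex_mom μ A b hA hb htail 2 two_pos
  obtain ⟨i3, j3⟩ := ex_mom μ A 0 hA le_rfl htail 1 one_pos
  obtain ⟨i4, j4⟩ := ex_mom μ A 0 hA le_rfl htail 2 two_pos
  have e0 : ∀ s, ex 0 s = |s| := by
    intro s
    unfold ex
    rw [sub_zero, max_eq_left (abs_nonneg s)]
  simp only [e0, pow_one, sq_abs, neg_zero, Real.exp_zero, mul_one, Nat.factorial] at i1 j1 i2 j2 i3 j3 i4 j4
  norm_num at i1 j1 i2 j2 i3 j3 i4 j4
  have is : Integrable (fun s : ℝ => s) μ := (integrable_norm_iff (by fun_prop)).1 (by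
    simpa only [Real.norm_eq_abs] using i3)
  have ic : Integrable (fun s : ℝ => clip b s) μ := by
    refine Integrable.of_bound (C := b) hcm.aestronglyMeasurable (Filter.Eventually.of_forall ?_)
    intro s
    rw [Real.norm_eq_abs]
    exact clip_abs b s hb
  have ic2 : Integrable (fun s : ℝ => clip b s ^ 2) μ := by
    refine Integrable.of_bound (C := b ^ 2) (by fun_prop) (Filter.Eventually.of_forall ?_)
    intro s
    rw [Real.norm_eq_abs, abs_pow]
    exact pow_le_pow_left₀ (abs_nonneg _) (clip_abs b s hb) 2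
  have hMb : |M| ≤ A := by
    rw [← hM]
    exact (abs_integral_le_integral_abs).trans j3
  have hM0b : |M0| ≤ A := by
    rw [← hM0]
    refine (abs_integral_le_integral_abs).trans (le_trans (integral_mono ic.abs i3 ?_) j3)
    intro s
    simp only
    unfold clip
    rw [abs_le]
    constructor
    · rcases le_or_gt (-b) (min b s) with h | h
      · rw [max_eq_right h]
        rcases le_or_gt b s with h2 | h2
        · rw [min_eq_left h2]
          have := abs_nonneg s
          linarith
        · rw [min_eq_right h2.le]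
          exact neg_abs_le s
      · rw [max_eq_left h.le]
        rcases le_or_gt b s with h2 | h2
        · rw [min_eq_left h2] at h
          linarith
        · rw [min_eq_right h2.le] at h
          have := neg_abs_le s
          linarith
    · refine max_le ?_ ((min_le_right _ _).trans (le_abs_self s))
      have := abs_nonneg s
      linarith
  have h1 : |M - M0| ≤ A * Real.exp (-b) := by
    rw [← hM, ← hM0, ← integral_sub is ic]
    refine (abs_integral_le_integral_abs).trans (le_trans (le_of_eq ?_) j1)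
    refine integral_congr_ae (Filter.Eventually.of_forall fun s => ?_)
    simp only
    rw [clip_sub b s hb]
  have hVe : V = ∫ s, s ^ 2 ∂μ - M ^ 2 := by
    have e1 : ∀ s : ℝ, (s - M) ^ 2 = s ^ 2 - 2 * M * s + M ^ 2 := fun s => by ring
    have i5 : Integrable (fun s : ℝ => s ^ 2 - 2 * M * s) μ := i4.sub (is.const_mul _)
    rw [← hV]
    simp only [e1]
    rw [integral_add i5 (integrable_const _),
      integral_sub i4 (is.const_mul _), integral_const_mul, integral_const, probReal_univ,
      one_smul, hM]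
    ring
  have hV0e : V0 = ∫ s, clip b s ^ 2 ∂μ - M0 ^ 2 := by
    have e1 : ∀ s : ℝ, (clip b s - M0) ^ 2 = clip b s ^ 2 - 2 * M0 * clip b s + M0 ^ 2 :=
      fun s => by ring
    have i5 : Integrable (fun s : ℝ => clip b s ^ 2 - 2 * M0 * clip b s) μ :=
      ic2.sub (ic.const_mul _)
    rw [← hV0]
    simp only [e1]
    rw [integral_add i5 (integrable_const _),
      integral_sub ic2 (ic.const_mul _), integral_const_mul, integral_const, probReal_univ,
      one_smul, hM0]
    ring
  have h2 : ∫ s, s ^ 2 ∂μ - ∫ s, clip b s ^ 2 ∂μ = ∫ s, ex b s ^ 2 ∂μ + 2 * b * ∫ s, ex b s ∂μ := by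
    rw [← integral_sub i4 ic2, ← integral_const_mul, ← integral_add i2 (i1.const_mul _)]
    refine integral_congr_ae (Filter.Eventually.of_forall fun s => ?_)
    simp only
    rw [clip_sq b s hb]
  have h3 : 0 ≤ ∫ s, ex b s ^ 2 ∂μ := integral_nonneg fun s => sq_nonneg _
  have h4 : 0 ≤ ∫ s, ex b s ∂μ := integral_nonneg fun s => ex_nonneg b s
  refine ⟨h1, ?_, ?_, hMb, ?_⟩
  · have e1 : V - V0 = (∫ s, ex b s ^ 2 ∂μ + 2 * b * ∫ s, ex b s ∂μ) - (M - M0) * (M + M0) := by
      rw [hVe, hV0e, ← h2]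
      ring
    have e2 : |(M - M0) * (M + M0)| ≤ A * Real.exp (-b) * (2 * A) := by
      rw [abs_mul]
      gcongr
      exact (abs_add_le M M0).trans (by linarith)
    rw [e1]
    have e3 := abs_sub (∫ s, ex b s ^ 2 ∂μ + 2 * b * ∫ s, ex b s ∂μ) ((M - M0) * (M + M0))
    rw [abs_of_nonneg (show 0 ≤ ∫ s, ex b s ^ 2 ∂μ + 2 * b * ∫ s, ex b s ∂μ by positivity)] at e3
    have e4 : 2 * b * ∫ s, ex b s ∂μ ≤ 2 * b * (A * Real.exp (-b)) := by gcongr
    nlinarith
  · rw [← hV0]
    exact integral_nonneg fun s => sq_nonneg _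
  · rw [hVe]
    nlinarith [sq_nonneg M]

end Pool.Agent.TH791.GR
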